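import Pool.Agent.H23.DF.TargetsA
import Pool.Agent.H23.DM.TargetsQ
import Pool.Agent.H23.LC.Targets
import Pool.Agent.H23.LB.Targets

/-!
# Board dmf_modules, module FI: the theorem for families of boxes and cosets
-/

set_option autoImplicit false

open NumberField NumberField.InfinitePlace NumberField.Units
  NumberField.Units.dirichletUnitTheorem MeasureTheory Set Filter Complex
open scoped nonZeroDivisors ENNReal

namespace Pool.Agent.H1.DF.FI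

open Pool.Agent.H25.HK Pool.Agent.H23.LB Pool.Agent.H23.LC
open Pool.Agent.H31.SW (PP dK)
open Pool.Agent.H31.SX (LK)
open Pool.Agent.H29.DW (PrG IsCon)
open Pool.Agent.H23.DF
open Pool.Agent.H23.DM (Clq)
open Pool.Agent.H27.TM (InT Sp1)

section NF

variable {K : Type} [Field K] [NumberField K] {f : Ideal (𝓞 K)}

private lemma Nf_ge (hf : f ≠ ⊥) : 1 ≤ (Ideal.absNorm f : ℝ) := by
  have h : Ideal.absNorm f ≠ 0 := fun h => hf (Ideal.absNorm_eq_zero_iff.1 h)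
  exact_mod_cast Nat.one_le_iff_ne_zero.2 h

private lemma one_le_PPT {T : InfinitePlace K → ℝ} (hT : ∀ v, 1 ≤ T v) : 1 ≤ PP T := by
  unfold PP
  have h : ∏ v : InfinitePlace K, (1 : ℝ) ≤ ∏ v : InfinitePlace K, T v ^ v.mult :=
    Finset.prod_le_prod (fun _ _ => zero_le_one) fun v _ => one_le_pow₀ (hT v)
  simpa using h

private lemma discr_ge : 1 ≤ |(discr K : ℝ)| := by
  have h : 1 ≤ |discr K| := Int.one_le_abs (discr_ne_zero K)
  exact_mod_cast h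

end NF

/-- the numbers -/
private lemma num {C D N G e e' s : ℝ} {r R : ℕ} (hC : 0 ≤ C) (hD : 0 ≤ D) (hN : 1 ≤ N)
    (hG : 0 < G) (he : e ≤ e') (hs : 0 ≤ s) (hr : r ≤ R) :
    C * (D * N ^ e * ((r : ℝ) * G + (r : ℝ) ^ (1 / 2 : ℝ) * (N / G ^ 2)) ^ s) ≤
      C * D * N ^ e' * ((R : ℝ) * G + (R : ℝ) ^ (1 / 2 : ℝ) * N / G ^ 2) ^ s := by
  have hN0 : 0 < N := by linarith
  have hrR : (r : ℝ) ≤ R := by exact_mod_cast hr
  have h1 : N ^ e ≤ N ^ e' := Real.rpow_le_rpow_of_exponent_le hN he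
  have h2 : (r : ℝ) ^ (1 / 2 : ℝ) ≤ (R : ℝ) ^ (1 / 2 : ℝ) :=
    Real.rpow_le_rpow (Nat.cast_nonneg r) hrR (by norm_num)
  have hr0 : (0 : ℝ) ≤ r := Nat.cast_nonneg r
  have hr1 : 0 ≤ (r : ℝ) ^ (1 / 2 : ℝ) := Real.rpow_nonneg hr0 _
  have h3 : (r : ℝ) * G + (r : ℝ) ^ (1 / 2 : ℝ) * (N / G ^ 2) ≤
      (R : ℝ) * G + (R : ℝ) ^ (1 / 2 : ℝ) * N / G ^ 2 := by
    rw [mul_div_assoc]
    have : 0 ≤ N / G ^ 2 := by positivity
    gcongr
  have h4 : ((r : ℝ) * G + (r : ℝ) ^ (1 / 2 : ℝ) * (N / G ^ 2)) ^ s ≤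
      ((R : ℝ) * G + (R : ℝ) ^ (1 / 2 : ℝ) * N / G ^ 2) ^ s :=
    Real.rpow_le_rpow (by positivity) h3 hs
  have h5 : 0 ≤ ((r : ℝ) * G + (r : ℝ) ^ (1 / 2 : ℝ) * (N / G ^ 2)) ^ s :=
    Real.rpow_nonneg (by positivity) _
  have h6 : 0 ≤ N ^ e' := Real.rpow_nonneg hN0.le _
  calc C * (D * N ^ e * ((r : ℝ) * G + (r : ℝ) ^ (1 / 2 : ℝ) * (N / G ^ 2)) ^ s) =
      C * D * (N ^ e * ((r : ℝ) * G + (r : ℝ) ^ (1 / 2 : ℝ) * (N / G ^ 2)) ^ s) := by ring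
    _ ≤ C * D * (N ^ e' * ((R : ℝ) * G + (R : ℝ) ^ (1 / 2 : ℝ) * N / G ^ 2) ^ s) :=
        mul_le_mul_of_nonneg_left (mul_le_mul h1 h4 h5 h6) (mul_nonneg hC hD)
    _ = _ := by ring

/-- (FI) the theorem. -/
theorem pf_FI (hQH : F_QH) (hTW : F_TW) (hFK : U_FK) (hSY : T_SY) : F_FI := by
  intro m hm
  obtain ⟨B₁, hB₁, h⟩ := hQH m hm
  obtain ⟨B₂, hB₂, h'⟩ := hTW m hm
  refine ⟨max B₁ B₂, fun ε hε => ?_⟩
  set e₁ : ℝ := min ε 1 with he₁
  have he10 : 0 < e₁ := lt_min hε one_pos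
  have he11 : e₁ ≤ 1 := min_le_right _ _
  have he1ε : e₁ ≤ ε := min_le_left _ _
  obtain ⟨C₁, hC₁, h1⟩ := h e₁ he10 he11
  obtain ⟨C₂, hC₂, h2⟩ := h' e₁ he10 he11
  refine ⟨max C₁ C₂, ?_⟩
  intro K _ _ hK l s k Y hSK
  classical
  have hl : l ≠ ⊥ := hSK.lk.l_ne
  have hsk : s * k ≠ ⊥ := hSK.lk.k_ne
  have hf : l * (s * k) ≠ ⊥ := by
    rw [← Ideal.zero_eq_bot]
    exact mul_ne_zero hl hsk
  have hk : k ≠ ⊥ := by
    rintro rfl
    exact hsk (by rw [← Ideal.zero_eq_bot, mul_zero])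
  have hrad : k.radical ≠ ⊥ := fun h => hk (le_bot_iff.mp (Ideal.le_radical.trans h.le))
  obtain ⟨Y'⟩ := hSY K (l * (s * k)) hf
  choose L hL hLd using fun χ : HG K (l * (s * k)) => hFK K (l * (s * k)) hf Y' χ
  have hNk := Nf_ge hsk
  have hbase : 1 ≤ |(discr K : ℝ)| * Ideal.absNorm l * Ideal.absNorm k.radical * Y :=
    one_le_mul_of_one_le_of_one_le (one_le_mul_of_one_le_of_one_le
      (one_le_mul_of_one_le_of_one_le discr_ge (Nf_ge hl)) (Nf_ge hrad)) hSK.one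
  set b : ℝ := |(discr K : ℝ)| * Ideal.absNorm l * Ideal.absNorm k.radical * Y with hb
  have hb0 : 0 ≤ b := zero_le_one.trans hbase
  refine ⟨L, fun χ => ⟨(hL χ).1, (hL χ).2.1, hLd χ⟩, ?_⟩
  intro p T H κ R S bl hp2 hp12 hT hSP hS1 hS2 hlt
  have hPT := one_le_PPT hT
  have hN : 1 ≤ (Ideal.absNorm (s * k) : ℝ) * PP T := one_le_mul_of_one_le_of_one_le hNk hPT
  have hN0 : 0 < (Ideal.absNorm (s * k) : ℝ) * PP T := zero_lt_one.trans_le hN
  rcases hp12.lt_or_eq with hp | hp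
  · obtain ⟨hTH, hKq, hbl, hcl⟩ := hlt hp
    have hκ : κ ≠ ⊥ := fun h0 => hsk (le_bot_iff.1 (hKq.le.trans h0.le))
    have hNκ := Nf_ge hκ
    have hPH := one_le_PPT fun v => (hTH v).1
    have h3 := h1 K hK l s k κ Y hSK hKq Y' L hL H T S bl p hTH hSP hS2 hS1 hcl hp2 hp12
    refine h3.trans ?_
    have hcard : (S.image bl).card ≤ R := by
      have h5 : S.image bl ⊆ Finset.range R := by
        intro x hx
        obtain ⟨q, hq, rfl⟩ := Finset.mem_image.1 hx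
        exact Finset.mem_range.2 (hbl q hq)
      calc (S.image bl).card ≤ (Finset.range R).card := Finset.card_le_card h5
        _ = R := Finset.card_range R
    have h6 := num (C := C₁) (D := b ^ B₁)
      (N := (Ideal.absNorm (s * k) : ℝ) * PP T) (G := (Ideal.absNorm κ : ℝ) * PP H)
      (e := (p - 2) / 5 + e₁) (e' := (p - 2) / 5 + ε) (s := (12 - p) / 10)
      hC₁ (by positivity) hN
      (by linarith [one_le_mul_of_one_le_of_one_le hNκ hPH]) (by linarith) (by linarith) hcard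
    have h7 : C₁ * b ^ B₁ ≤ max C₁ C₂ * b ^ max B₁ B₂ :=
      mul_le_mul (le_max_left _ _) (Real.rpow_le_rpow_of_exponent_le hbase (le_max_left _ _))
        (Real.rpow_nonneg hb0 _) (hC₁.trans (le_max_left _ _))
    refine (le_trans (le_of_eq ?_) h6).trans ?_
    · rw [hb, mul_assoc |(discr K : ℝ)|, mul_assoc |(discr K : ℝ)|]
      rfl
    · have hG0 : 0 ≤ (Ideal.absNorm κ : ℝ) * PP H := by
        linarith [one_le_mul_of_one_le_of_one_le hNκ hPH]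
      have h8 : 0 ≤ ((R : ℝ) * ((Ideal.absNorm κ : ℝ) * PP H) + (R : ℝ) ^ (1 / 2 : ℝ) *
          ((Ideal.absNorm (s * k) : ℝ) * PP T) / ((Ideal.absNorm κ : ℝ) * PP H) ^ 2) ^
            ((12 - p) / 10) :=
        Real.rpow_nonneg (by positivity) _
      have h9 : 0 ≤ ((Ideal.absNorm (s * k) : ℝ) * PP T) ^ ((p - 2) / 5 + ε) :=
        Real.rpow_nonneg hN0.le _
      exact mul_le_mul_of_nonneg_right (mul_le_mul_of_nonneg_right h7 h9) h8
  · subst hp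
    have h3 := h2 K hK l s k Y hSK Y' L hL T S hT hSP hS2 hS1
    have e1 : ∀ q ∈ S, ‖L q.1 (1 / 2 + q.2 * I)‖ ^ (12 : ℝ) =
        ‖L q.1 (1 / 2 + q.2 * I)‖ ^ (12 : ℕ) := fun q _ => by
      rw [← Real.rpow_natCast]
      norm_num
    rw [Finset.sum_congr rfl e1]
    refine h3.trans ?_
    rw [show ((12 : ℝ) - 12) / 10 = 0 by norm_num, Real.rpow_zero, mul_one,
      show ((12 : ℝ) - 2) / 5 + ε = 2 + ε by norm_num]
    have h7 : C₂ * b ^ B₂ ≤ max C₁ C₂ * b ^ max B₁ B₂ :=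
      mul_le_mul (le_max_right _ _) (Real.rpow_le_rpow_of_exponent_le hbase (le_max_right _ _))
        (Real.rpow_nonneg hb0 _) (hC₂.trans (le_max_right _ _))
    have h9 : 0 ≤ ((Ideal.absNorm (s * k) : ℝ) * PP T) ^ (2 + e₁) := Real.rpow_nonneg hN0.le _
    have h10 : ((Ideal.absNorm (s * k) : ℝ) * PP T) ^ (2 + e₁) ≤
        ((Ideal.absNorm (s * k) : ℝ) * PP T) ^ (2 + ε) :=
      Real.rpow_le_rpow_of_exponent_le hN (by linarith)
    have h11 : 0 ≤ max C₁ C₂ * b ^ max B₁ B₂ :=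
      mul_nonneg (hC₁.trans (le_max_left _ _)) (Real.rpow_nonneg hb0 _)
    have h12 := mul_le_mul h7 h10 h9 h11
    refine le_trans (le_of_eq ?_) h12
    rw [← mul_assoc, hb, mul_assoc |(discr K : ℝ)|, mul_assoc |(discr K : ℝ)|]
    rfl

end Pool.Agent.H1.DF.FI
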